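import Mathlib
import Pool.Agent.Y912.NW.Final

set_option autoImplicit false
open Set Filter Topology Asymptotics

namespace Pool.Agent.Results.MP_a45a4d_an.AllDimensions

open Y912.NW

/-- `Φ` solves the profile equation of radial self-similar solutions
`φ(t,x) = (T-t)^(-2/(p-1)) Φ(|x|/(T-t))` of `∂²φ/∂t² - Δφ - f(φ) = 0` on `ℝ^d`:
`(1-y²)Φ'' + ((d-1)/y - 2(p+1)/(p-1) y)Φ' - 2(p+1)/(p-1)² Φ + f(Φ) = 0` at every `y > 0`
(so also at the light cone `y = 1`). For `d = 3` this is the equation of the problem. -/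
def SolvesODE (d : ℕ) (p : ℝ) (f Φ : ℝ → ℝ) : Prop :=
  ∀ y : ℝ, 0 < y →
    (1 - y ^ 2) * deriv (deriv Φ) y
      + (((d : ℝ) - 1) / y - 2 * (p + 1) / (p - 1) * y) * deriv Φ y
      - 2 * (p + 1) / (p - 1) ^ 2 * Φ y + f (Φ y) = 0

/-- For every dimension `d ≥ 2`, every `p > 1` which is energy-subcritical or energy-critical
(`(d - 2)(p - 1) ≤ 4`, that is `p ≤ (d+2)/(d-2)` if `d ≥ 3`) and every nonlinearity `f` which is
positively homogeneous of degree `p` (for instance `±|x|^(p-1) x`, or `x^p` for integers `p`),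
each `C²` solution `Φ : [0, ∞) → ℝ` of the profile equation is constant; hence the only one with
`Φ(y) = O(y^(-2/(p-1)))` is zero. -/
theorem result :
    (∀ (d : ℕ) (p : ℝ) (f Φ : ℝ → ℝ), 2 ≤ d → 1 < p → ((d : ℝ) - 2) * (p - 1) ≤ 4 →
      IsHomogeneous p f → ContDiffOn ℝ 2 Φ (Ici 0) → SolvesODE d p f Φ →
        (∀ y, 0 ≤ y → Φ y = Φ 0) ∧
          (Φ =O[atTop] (fun y : ℝ => y ^ (-(2 / (p - 1)))) → ∀ y, 0 ≤ y → Φ y = 0)) ∧
    (∀ (p c : ℝ), 1 < p → IsHomogeneous p (fun x => c * (|x| ^ (p - 1) * x))) ∧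
    ∀ n : ℕ, IsHomogeneous n (fun x => x ^ n) := by
  refine ⟨?_, ?_, ?_⟩
  · intro d p f Φ hd2 hp1 hp hf hΦ hode
    obtain ⟨k, rfl⟩ : ∃ k : ℕ, d = k + 2 := ⟨d - 2, by omega⟩
    have hp0 : 0 < p - 1 := by linarith
    set α : ℝ := 2 / (p - 1) with hα
    have hα0 : 0 < α := by positivity
    have ha : (k : ℝ) ≤ 2 * α := by
      push_cast at hp
      rw [hα, mul_div_assoc', le_div_iff₀ hp0]
      linarith
    have e1 : 2 * (p + 1) / (p - 1) = 2 * (1 + α) := by
      rw [hα]; field_simp; ring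
    have e2 : 2 * (p + 1) / (p - 1) ^ 2 = α * (1 + α) := by
      rw [hα]; field_simp; ring
    -- regularity
    have hUD : UniqueDiffOn ℝ (Ici (0 : ℝ)) := uniqueDiffOn_Ici 0
    set Φ₁ : ℝ → ℝ := derivWithin Φ (Ici 0) with hΦ₁
    have hΦ1C : ContDiffOn ℝ 1 Φ₁ (Ici 0) := hΦ.derivWithin hUD (by norm_num)
    have hnhds : ∀ y : ℝ, 0 < y → Ici (0 : ℝ) ∈ 𝓝 y := fun y hy => Ici_mem_nhds hy
    have hΦ1eq : ∀ y : ℝ, 0 < y → Φ₁ y = deriv Φ y := fun y hy =>
      derivWithin_of_mem_nhds (hnhds y hy)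
    have hd : ∀ y, 0 < y → HasDerivAt Φ (Φ₁ y) y := by
      intro y hy
      rw [hΦ1eq y hy]
      exact ((hΦ.differentiableOn (by norm_num)).differentiableAt (hnhds y hy)).hasDerivAt
    have hev : ∀ y : ℝ, 0 < y → Φ₁ =ᶠ[𝓝 y] deriv Φ := by
      intro y hy
      filter_upwards [Ioi_mem_nhds hy] with z hz
      exact hΦ1eq z hz
    have hd1 : ∀ y, 0 < y → HasDerivAt Φ₁ (deriv (deriv Φ) y) y := by
      intro y hy
      have h := ((hΦ1C.differentiableOn (by norm_num)).differentiableAt (hnhds y hy)).hasDerivAt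
      rwa [(hev y hy).deriv_eq] at h
    have h0 : ContinuousOn Φ (Icc 0 1) := hΦ.continuousOn.mono Icc_subset_Ici_self
    have h1 : ContinuousOn Φ₁ (Icc 0 1) := hΦ1C.continuousOn.mono Icc_subset_Ici_self
    have hode' : ∀ y, 0 < y → (1 - y ^ 2) * deriv (deriv Φ) y
        + (((k : ℝ) + 1) / y - 2 * (1 + α) * y) * Φ₁ y - α * (1 + α) * Φ y + f (Φ y) = 0 := by
      intro y hy
      have h := hode y hy
      rw [e1, e2] at h
      rw [hΦ1eq y hy]
      push_cast at h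
      rw [show (k : ℝ) + 2 - 1 = k + 1 by ring] at h
      exact h
    have hconst := constant hp1 hα ha f Φ Φ₁ (deriv (deriv Φ)) hf h0 h1 hd hd1 hode'
    refine ⟨fun y hy => (hconst y hy).trans (hconst 0 le_rfl).symm, ?_⟩
    intro hdecay y hy
    have hlim : Tendsto (fun y : ℝ => y ^ (-α)) atTop (𝓝 0) := tendsto_rpow_neg_atTop hα0
    have hΦ0 : Tendsto Φ atTop (𝓝 0) := hdecay.trans_tendsto hlim
    have hΦ1' : Tendsto Φ atTop (𝓝 (Φ 1)) := by
      refine tendsto_const_nhds.congr' ?_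
      filter_upwards [eventually_ge_atTop (0 : ℝ)] with z hz
      exact (hconst z hz).symm
    rw [hconst y hy]
    exact tendsto_nhds_unique hΦ1' hΦ0
  · intro p c hp t ht x
    simp only
    rw [abs_mul, abs_of_nonneg ht, Real.mul_rpow ht (abs_nonneg x)]
    rcases ht.eq_or_lt with h | h
    · rw [← h, Real.zero_rpow (by linarith : p ≠ 0)]
      ring
    · have e : t ^ p = t ^ (p - 1) * t := by
        rw [← Real.rpow_add_one h.ne']
        congr 1
        ring
      rw [e]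
      ring
  · intro n t _ x
    simp only
    rw [Real.rpow_natCast, mul_pow]

end Pool.Agent.Results.MP_a45a4d_an.AllDimensions
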